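import Pool.Agent.Helper85.Refl.Bd
import Pool.Agent.Helper85.Refl.Runs

set_option autoImplicit false

open Cardinal Ordinal Set Filter Helper23.Pcf Helper85.Refl

universe u v

namespace Helper55.PB

/-- If `ν⁺ ≤ |pcf(a_α)|`, `|a_α| = κ < θ ≤ ν`, `θ` regular, then for every family `𝓕` of at most
`ν` sets there is a club `D` of `θ` such that no subset of `D` of type `κ⁺` has all its proper
initial segments covered by members of `𝓕` which are contained in `D` and bounded by an element of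
the subset. -/
theorem no_prediction {α : Ordinal.{u}} {κ θ ν : Cardinal.{u}} (hα : Order.IsSuccLimit α)
    (hκ : #(aSet α) = Cardinal.lift.{u+1} κ) (hθ : θ.IsRegular) (hκθ : κ < θ) (hθν : θ ≤ ν)
    (hp : Cardinal.lift.{u+1} (Order.succ ν) ≤ #(pcf (aSet α)))
    {𝓕 : Set (Set Ordinal.{u})} (h𝓕 : #𝓕 ≤ Cardinal.lift.{u+1} ν) :
    ∃ D : Set Ordinal.{u}, ClubIn D θ.ord ∧ ∀ e : Ordinal.{u} → Ordinal.{u},
      (∀ i < (Order.succ κ).ord, ∀ j < i, e j < e i) →
      (∀ i < (Order.succ κ).ord, e i ∈ D ∧ e i < θ.ord) →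
      ∃ ε < (Order.succ κ).ord, ∀ z ∈ 𝓕, e '' Iio ε ⊆ z → z ⊆ D →
        ∀ ι < (Order.succ κ).ord, ¬ z ⊆ Iio (e ι) := by
  classical
  set lam := Order.succ ν with hlamdef
  have hν0 : ℵ₀ ≤ ν := hθ.1.trans hθν
  have hlam : lam.IsRegular := Cardinal.isRegular_succ hν0
  have hνlam : ν < lam := Order.lt_succ ν
  have hθlam : θ < lam := hθν.trans_lt hνlam
  have hlamlim : Order.IsSuccLimit lam.ord := Cardinal.isSuccLimit_ord hlam.1
  have hne : (aSet α).Nonempty := by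
    by_contra hcon
    rw [Set.not_nonempty_iff_eq_empty] at hcon
    rw [pcf_aSet, hcon, pcfS_empty] at hp
    simp only [Cardinal.mk_eq_zero, nonpos_iff_eq_zero, Cardinal.lift_eq_zero] at hp
    exact hlam.ne_zero hp
  obtain ⟨γ, hγα, hA, hAc, h0, hκγ⟩ := setup hα hne
  have hκeq : (α - γ).card = κ := by
    rw [hAc] at hκ
    exact Cardinal.lift_injective hκ
  rw [hκeq] at h0 hκγ
  rw [pcf_aSet, hA] at hp
  obtain ⟨ϑ, Y, G, _, hY, hYc, hG1, hG2, hG3, hG4, hidx, hclub⟩ :=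
    exists_structure h0 hκeq hκγ hα hγα hlam (hκθ.trans hθlam) hp
  have hYreg : ∀ m ∈ Y, m.IsRegular := fun m hm => (hY hm).1
  have hθ0 : ℵ₀ < θ := h0.trans_lt hκθ
  have hκreg : (Order.succ κ).IsRegular := Cardinal.isRegular_succ h0
  have hκlim : Order.IsSuccLimit (Order.succ κ).ord := Cardinal.isSuccLimit_ord hκreg.1
  obtain ⟨f, hf⟩ := exists_enum h𝓕
  -- the chain
  let W : Ordinal.{u} → (Ordinal.{u} → Ordinal.{u}) → Set Cardinal.{u} :=
    fun n ζ => (fun x => idx ϑ (ζ x)) '' f n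
  let ee : Ordinal.{u} → (Ordinal.{u} → Ordinal.{u}) → Ordinal.{u} :=
    fun n ζ => sInf {ε | pcfS (W n ζ) ⊆ Iic (idx ϑ ε)}
  obtain ⟨ξ, hξ⟩ := exists_cont (fun _ ζ =>
    ⨆ n : Iio ν.ord, if ee n.1 ζ < lam.ord then ee n.1 ζ else 0)
  have hξlam : ∀ i < Order.succ θ.ord, ξ i < lam.ord := by
    refine cont_bound hξ hlamlim ?_ ?_
    · intro i _ ζ _
      refine iSup_Iio_lt ?_ fun n => ?_
      · rw [hlam.cof_ord, Cardinal.card_ord]; exact hνlam
      · split_ifs with h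
        · exact h
        · exact hlamlim.bot_lt
    · intro i hi
      have := Ordinal.card_le_card (Order.lt_succ_iff.1 hi)
      rw [Cardinal.card_ord] at this
      rw [hlam.cof_ord]
      exact this.trans_lt hθlam
  have hθlim : Order.IsSuccLimit θ.ord := Cardinal.isSuccLimit_ord hθ.1
  set η := ξ θ.ord with hη
  have hηlam : η < lam.ord := hξlam _ (Order.lt_succ _)
  have hηcof : η.cof = θ := by rw [hη, cont_cof hξ hθlim, hθ.cof_ord]
  obtain ⟨C, hC, hC'⟩ := hclub η hηlam (by rw [hηcof]; exact hθ0)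
  refine ⟨{i | ξ i ∈ C}, club_preimage hξ (by rw [hθ.cof_ord]; exact hθ0) hC, ?_⟩
  intro e he1 he2
  by_contra hcon
  push Not at hcon
  have hξη : ∀ i < (Order.succ κ).ord, ξ (e i) < η := fun i hi => cont_lt hξ (he2 i hi).2
  have heinj : ∀ i < (Order.succ κ).ord, ∀ j < (Order.succ κ).ord, e i = e j → i = j := by
    intro i hi j hj h
    rcases lt_trichotomy i j with h' | h' | h'
    · exact absurd h (he1 j hj i h').ne
    · exact h'
    · exact absurd h (he1 i hi j h').ne'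
  have hξinj : ∀ x y, ξ x = ξ y → x = y := by
    intro x y h
    rcases lt_trichotomy x y with h' | h' | h'
    · exact absurd h (cont_lt hξ h').ne
    · exact h'
    · exact absurd h (cont_lt hξ h').ne'
  let c : Ordinal.{u} → Cardinal.{u} := fun i => idx ϑ (ξ (e i))
  have hcinj : ∀ i < (Order.succ κ).ord, ∀ j < (Order.succ κ).ord, c i = c j → i = j :=
    fun i hi j hj h => heinj i hi j hj (hξinj _ _ (idx_inj h))
  have hclt : ∀ i < (Order.succ κ).ord, ∀ j < i, c j < c i := fun i hi j hj =>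
    idx_lt.2 (cont_lt hξ (he1 i hi j hj))
  -- an ultrafilter on the tails
  let K := (Order.succ κ).ord.ToType
  let w : K → Ordinal.{u} := fun k => ((ToType.mk (o := (Order.succ κ).ord)).symm k).1
  have hw : ∀ k, w k < (Order.succ κ).ord := fun k =>
    ((ToType.mk (o := (Order.succ κ).ord)).symm k).2
  have hwinj : Function.Injective w := fun k k' h =>
    (ToType.mk (o := (Order.succ κ).ord)).symm.injective (Subtype.ext h)
  obtain ⟨D', hD'⟩ := exists_tail_uf w hκlim.bot_lt (by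
    intro x hx
    refine ⟨ToType.mk (o := (Order.succ κ).ord) ⟨Order.succ x, hκlim.succ_lt hx⟩, ?_⟩
    simp only [w, OrderIso.symm_apply_apply]
    exact Order.lt_succ x)
  obtain ⟨l, hl⟩ := exists_hasCof D' (fun k => (c (w k)).ord)
    (Filter.Eventually.of_forall fun k => Cardinal.isSuccLimit_ord (idx_reg _ _).1)
  let X : Set Cardinal.{u} := c '' Iio (Order.succ κ).ord
  have hXY : X ⊆ pcfS Y := by
    rintro _ ⟨i, hi, rfl⟩
    exact hidx _ ((hξη i hi).trans hηlam)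
  have hlX : l ∈ pcfS X := by
    refine ⟨K, fun k => c (w k), D', ?_, fun k => ⟨w k, hw k, rfl⟩, hl⟩
    intro k k' h
    exact hwinj (hcinj _ (hw k) _ (hw k') h)
  have hcl : ∀ i < (Order.succ κ).ord, c i < l := by
    intro i hi
    refine hl.lt_of_cof ?_
    filter_upwards [hD' i hi] with k hk
    rw [(idx_reg _ _).cof_ord]
    exact hclt _ (hw k) i hk
  -- localization
  obtain ⟨X', hX'X, hX'c, m, hm, hlm⟩ := weak_localization hYreg hG1 hG2 hG3 hG4 hXY hlX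
  have hX'κ : #X' ≤ Cardinal.lift.{u+1} κ := hX'c.trans hYc
  let I' : Set Ordinal.{u} := {i | i < (Order.succ κ).ord ∧ c i ∈ X'}
  have hI' : #I' ≤ Cardinal.lift.{u+1} κ := by
    refine le_trans ?_ hX'κ
    refine Cardinal.mk_le_of_injective (f := fun i : I' => (⟨c i.1, i.2.2⟩ : X')) ?_
    intro i j h
    exact Subtype.ext (hcinj _ i.2.1 _ j.2.1 (Subtype.mk.inj h))
  have hsup : supOn I' (Order.succ κ).ord id < (Order.succ κ).ord := by
    refine supOn_lt ?_ fun i _ hi => hi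
    rw [hκreg.cof_ord]
    exact hI'.trans_lt (Cardinal.lift_lt.2 (Order.lt_succ κ))
  set ε := Order.succ (supOn I' (Order.succ κ).ord id) with hε
  have hεκ : ε < (Order.succ κ).ord := hκlim.succ_lt hsup
  obtain ⟨z, hz𝓕, hez, hzD, ι, hι, hzι⟩ := hcon ε hεκ
  have hsι : Order.succ ι < (Order.succ κ).ord := hκlim.succ_lt hι
  obtain ⟨n, hn, hfn⟩ := hf z hz𝓕
  have hX'W : X' ⊆ W n ξ := by
    intro x hx
    obtain ⟨i, hi, rfl⟩ := hX'X hx
    refine ⟨e i, ?_, rfl⟩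
    rw [hfn]
    refine hez ⟨i, ?_, rfl⟩
    exact Order.lt_succ_iff.2 (le_supOn (G := id) (show i ∈ I' from ⟨hi, hx⟩) hi)
  have hWη : pcfS (W n ξ) ⊆ Iic (idx ϑ η) := by
    have h1 : W n ξ ⊆ G (idx ϑ η) := by
      rintro _ ⟨x, hx, rfl⟩
      rw [hfn] at hx
      have hxθ : x < θ.ord := (hzι hx).trans (he2 ι hι).2
      exact hC' _ (hzD hx) (cont_lt hξ hxθ)
    have h2 := hG1 _ (hidx η hηlam)
    intro z hz
    exact h2.2.2.1 z (h2.2.1 (pcfS_mono h1 hz))
  have htr : W n (fun k => if k ≤ e ι then ξ k else 0) = W n ξ := by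
    refine Set.image_congr fun x hx => ?_
    rw [hfn] at hx
    have h1 : x < e ι := hzι hx
    simp only [if_pos h1.le]
  have h3 : ee n (fun k => if k ≤ e ι then ξ k else 0) ≤ η := by
    refine csInf_le' ?_
    show pcfS (W n (fun k => if k ≤ e ι then ξ k else 0)) ⊆ Iic (idx ϑ η)
    rw [htr]; exact hWη
  have h4 : pcfS (W n ξ) ⊆ Iic (idx ϑ (ee n (fun k => if k ≤ e ι then ξ k else 0))) := by
    have h5 := csInf_mem (s := {ε' | pcfS (W n (fun k => if k ≤ e ι then ξ k else 0)) ⊆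
      Iic (idx ϑ ε')}) ⟨η, by
        show pcfS (W n (fun k => if k ≤ e ι then ξ k else 0)) ⊆ Iic (idx ϑ η)
        rw [htr]; exact hWη⟩
    have h6 : pcfS (W n (fun k => if k ≤ e ι then ξ k else 0)) ⊆
      Iic (idx ϑ (ee n (fun k => if k ≤ e ι then ξ k else 0))) := h5
    rw [htr] at h6
    exact h6
  have h5 := cont_step hξ (he1 _ hsι ι (Order.lt_succ ι))
  have h6 := (Ordinal.le_iSup (fun n : Iio ν.ord =>
    if ee n.1 (fun k => if k ≤ e ι then ξ k else 0) < lam.ord then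
      ee n.1 (fun k => if k ≤ e ι then ξ k else 0) else 0) ⟨n, hn⟩).trans h5
  simp only [if_pos (h3.trans_lt hηlam)] at h6
  have h7 : m ≤ idx ϑ (ξ (e (Order.succ ι))) :=
    (h4 (pcfS_mono hX'W hm)).trans (idx_le.2 h6)
  exact absurd (hlm.trans h7) (not_le.2 (hcl _ hsι))

/-- The clubs. -/
theorem exists_clubs' {α : Ordinal.{u}} {κ ρ lam : Cardinal.{u}} (hα : Order.IsSuccLimit α)
    (hκ : #(aSet α) = Cardinal.lift.{u+1} κ) (hκρ : κ ≤ ρ) (hlam : lam.IsRegular)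
    (hκlam : Order.succ ρ < lam)
    (hp : Cardinal.lift.{u+1} lam ≤ #(pcf (aSet α))) {T : Set Ordinal.{u}}
    (hT : Approachable T (Order.succ ρ) lam) :
    ∃ D : Ordinal.{u} → Set Ordinal.{u},
      (∀ β, D β ⊆ Iio (Order.succ ρ).ord ∧ ClubIn (D β) (Order.succ ρ).ord) ∧
      ∀ P : Set (Set Ordinal.{u}), #P < Cardinal.lift.{u+1} lam → ∃ E, ClubIn E lam.ord ∧
        ∀ β ∈ T, β ∈ E → β < lam.ord → ∀ C ⊆ D β, UnbIn C (Order.succ ρ).ord →
          ∃ i < (Order.succ ρ).ord, ∀ z ∈ P, C ∩ Iio i ⊆ z → z ⊆ D β →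
            ∀ ι < (Order.succ ρ).ord, ¬ z ⊆ Iio ι := by
  classical
  have hne : (aSet α).Nonempty := by
    by_contra hcon
    rw [Set.not_nonempty_iff_eq_empty] at hcon
    rw [pcf_aSet, hcon, pcfS_empty] at hp
    simp only [Cardinal.mk_eq_zero, nonpos_iff_eq_zero, Cardinal.lift_eq_zero] at hp
    exact hlam.ne_zero hp
  obtain ⟨γ, hγα, hA, hAc, h0, hκγ⟩ := setup hα hne
  have hκeq : (α - γ).card = κ := by
    rw [hAc] at hκ
    exact Cardinal.lift_injective hκ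
  rw [hκeq] at h0 hκγ
  rw [pcf_aSet, hA] at hp
  obtain ⟨θ, Y, G, _, hY, hYc, hG1, hG2, hG3, hG4, hidx, hclub⟩ :=
    exists_structure h0 hκeq hκγ hα hγα hlam (hκρ.trans_lt ((Order.lt_succ ρ).trans hκlam)) hp
  have hYreg : ∀ m ∈ Y, m.IsRegular := fun m hm => (hY hm).1
  have hκreg : (Order.succ ρ).IsRegular := Cardinal.isRegular_succ (h0.trans hκρ)
  have hκlim : Order.IsSuccLimit (Order.succ ρ).ord := Cardinal.isSuccLimit_ord hκreg.1
  have hκcof : ℵ₀ < (Order.succ ρ).ord.cof := by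
    rw [hκreg.cof_ord]; exact (h0.trans hκρ).trans_lt (Order.lt_succ ρ)
  have hlam0 : ℵ₀ < lam := (h0.trans hκρ).trans_lt ((Order.lt_succ ρ).trans hκlam)
  have hlamcof : ℵ₀ < lam.ord.cof := by rw [hlam.cof_ord]; exact hlam0
  have hlamlim : Order.IsSuccLimit lam.ord := Cardinal.isSuccLimit_ord hlam.1
  obtain ⟨H, E, hH, hE, hTE⟩ := hT
  -- the sequences and the clubs
  have hD : ∀ β : Ordinal.{u}, ∃ (D : Set Ordinal.{u}) (c : Ordinal.{u} → Ordinal.{u}),
      D ⊆ Iio (Order.succ ρ).ord ∧ ClubIn D (Order.succ ρ).ord ∧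
      (β ∈ T → β ∈ E → β < lam.ord →
        (∀ i < (Order.succ ρ).ord, ∀ j < i, c j < c i) ∧
        smooth c (Order.succ ρ).ord = β ∧
        (∀ i < (Order.succ ρ).ord, ∃ γ < β, ∃ h ∈ H γ, ∀ j < i, c j = h j) ∧
        ∀ i ∈ D, idx θ (smooth c i) ∈ G (idx θ β)) := by
    intro β
    have huniv : ClubIn (Iio (Order.succ ρ).ord) (Order.succ ρ).ord :=
      ⟨fun y hy => ⟨Order.succ y, hκlim.succ_lt hy, Order.lt_succ y, hκlim.succ_lt hy⟩,
        fun δ hδ _ _ => hδ⟩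
    by_cases hβ : β ∈ T ∧ β ∈ E ∧ β < lam.ord
    · obtain ⟨c, hc1, hc2, hc3, hc4⟩ := hTE β hβ.1 hβ.2.1 hβ.2.2
      have htop := smooth_top hκlim hc1 hc2 hc3
      have hcof : ℵ₀ < β.cof := by
        rw [← htop, cont_cof (smooth_spec c) hκlim]; exact hκcof
      obtain ⟨C, hC, hC'⟩ := hclub β hβ.2.2 hcof
      have h1 : ClubIn {i | smooth c i ∈ C} (Order.succ ρ).ord :=
        club_preimage (smooth_spec c) hκcof (by rw [htop]; exact hC)
      refine ⟨{i | smooth c i ∈ C} ∩ Iio (Order.succ ρ).ord, c, inter_subset_right,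
        club_inter hκcof h1 huniv, fun _ _ _ => ⟨hc1, htop, hc4, ?_⟩⟩
      rintro i ⟨hi, hi'⟩
      refine hC' _ hi ?_
      rw [← htop]
      exact cont_lt (smooth_spec c) hi'
    · exact ⟨_, id, subset_rfl, huniv, fun h1 h2 h3 => absurd ⟨h1, h2, h3⟩ hβ⟩
  choose D c hD1 hD2 hD3 using hD
  refine ⟨D, fun β => ⟨hD1 β, hD2 β⟩, fun P hP => ?_⟩
  -- the sets `Z` and their bounds
  let Z : (Ordinal.{u} → Ordinal.{u}) → Set Ordinal.{u} → Set Cardinal.{u} :=
    fun h B => (fun j => idx θ (smooth h j)) '' B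
  let s : (Ordinal.{u} → Ordinal.{u}) → Set Ordinal.{u} → Ordinal.{u} :=
    fun h B => sInf {ε' | pcfS (Z h B) ⊆ Iic (idx θ ε')}
  have hZcongr : ∀ (f h : Ordinal.{u} → Ordinal.{u}) (i : Ordinal.{u}) (B : Set Ordinal.{u}),
      (∀ j < i, f j = h j) → B ⊆ Iio i → Z f B = Z h B := by
    intro f h i B hfh hB
    refine Set.image_congr ?_
    intro j hj
    show idx θ (smooth f j) = idx θ (smooth h j)
    rw [smooth_congr hfh j (hB hj).le]
  have hbd : ∀ γ < lam.ord, ∃ b < lam.ord, ∀ h ∈ H γ, ∀ B ∈ P,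
      s h B < lam.ord → s h B < b := by
    intro γ hγ
    have h1 := iSup_lt_of_mk_lt (ι := H γ × P)
      (f := fun x => if s x.1.1 x.2.1 < lam.ord then s x.1.1 x.2.1 else 0) hlam (by
        rw [Cardinal.mk_prod, Cardinal.lift_id, Cardinal.lift_id]
        exact Cardinal.mul_lt_of_lt (Cardinal.aleph0_le_lift.2 hlam.1) (hH γ hγ) hP) (by
        intro x
        split_ifs with h
        · exact h
        · exact hlamlim.bot_lt)
    refine ⟨_, hlamlim.succ_lt h1.2, fun h hh B hB hs => ?_⟩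
    rw [Order.lt_succ_iff]
    have h2 := le_ciSup h1.1 ((⟨h, hh⟩, ⟨B, hB⟩) : H γ × P)
    simp only [if_pos hs] at h2
    exact h2
  have hbd' : ∀ γ : Ordinal.{u}, ∃ b < lam.ord, γ < lam.ord → ∀ h ∈ H γ,
      ∀ B ∈ P, s h B < lam.ord → s h B < b := by
    intro γ
    by_cases hγ : γ < lam.ord
    · obtain ⟨b, h1, h2⟩ := hbd γ hγ
      exact ⟨b, h1, fun _ => h2⟩
    · exact ⟨0, hlamlim.bot_lt, fun h => absurd h hγ⟩
  choose b hb1 hb2 using hbd'
  have hK : ClubIn {β | ∀ γ < β, β ∈ Ioi (b γ)} lam.ord := by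
    refine club_diag hlamcof (fun x hx => ?_) (fun γ => Ioi (b γ)) fun γ hγ =>
      club_Ioi hlamlim (hb1 γ)
    rw [hlam.cof_ord]
    exact Cardinal.lt_ord.1 hx
  refine ⟨_, club_inter hlamcof hK hE, ?_⟩
  rintro β hβT ⟨hβK, hβE⟩ hβ C hCD hC
  by_contra hcon
  push Not at hcon
  obtain ⟨hc1, htop, hc4, hc5⟩ := hD3 β hβT hβE hβ
  have hξβ : ∀ i < (Order.succ ρ).ord, smooth (c β) i < β := fun i hi => by
    conv_rhs => rw [← htop]
    exact cont_lt (smooth_spec _) hi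
  have hξinj : ∀ x y, smooth (c β) x = smooth (c β) y → x = y := by
    intro x y h
    rcases lt_trichotomy x y with h' | h' | h'
    · exact absurd h (cont_lt (smooth_spec _) h').ne
    · exact h'
    · exact absurd h (cont_lt (smooth_spec _) h').ne'
  -- the sets `Z` of `β` are small below `β`
  have hZβ : ∀ i < (Order.succ ρ).ord, ∃ z < β, pcfS (Z (c β) (C ∩ Iio i)) ⊆ Iic (idx θ z) := by
    intro i hi
    obtain ⟨B, hBP, hCB, hBD, ι, hι, hBι⟩ := hcon i hi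
    obtain ⟨γ, hγ, h, hh, hch⟩ := hc4 ι hι
    have h1 : Z (c β) B ⊆ G (idx θ β) := by
      rintro _ ⟨j, hj, rfl⟩
      exact hc5 j (hBD hj)
    have h2 := hG1 _ (hidx β hβ)
    have h3 : pcfS (Z (c β) B) ⊆ Iic (idx θ β) := fun z hz =>
      h2.2.2.1 z (h2.2.1 (pcfS_mono h1 hz))
    have h3' : pcfS (Z (c β) (C ∩ Iio i)) ⊆ pcfS (Z (c β) B) := pcfS_mono (image_mono hCB)
    rw [hZcongr _ _ ι _ hch hBι] at h3 h3'
    have h4 : s h B ≤ β := csInf_le' h3
    have h5 : pcfS (Z h B) ⊆ Iic (idx θ (s h B)) :=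
      csInf_mem (s := {ε' | pcfS (Z h B) ⊆ Iic (idx θ ε')}) ⟨β, h3⟩
    have h6 : s h B < b γ :=
      hb2 γ (hγ.trans hβ) h hh _ hBP (h4.trans_lt hβ)
    exact ⟨_, h6.trans (hβK γ hγ), h3'.trans h5⟩
  -- an ultrafilter on the tails of `C`
  let W : Set Ordinal.{u} := {j | j ∈ C ∧ j < (Order.succ ρ).ord}
  have hWsmall : Small.{u} W := small_subset (show W ⊆ Set.Iio (Order.succ ρ).ord from
    fun j h => h.2)
  let J := Shrink.{u} W
  let w : J → Ordinal.{u} := fun j => ((equivShrink W).symm j).1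
  have hwinj : Function.Injective w := fun i j h =>
    (equivShrink W).symm.injective (Subtype.ext h)
  have hwmem : ∀ j, w j ∈ W := fun j => ((equivShrink W).symm j).2
  obtain ⟨D', hD'⟩ := exists_tail_uf w hκlim.bot_lt (by
    intro x hx
    obtain ⟨y, h1, h2, h3⟩ := hC x hx
    exact ⟨equivShrink W ⟨y, h1, h3⟩, by simpa [w] using h2⟩)
  obtain ⟨l, hl⟩ := exists_hasCof D' (fun k => (idx θ (smooth (c β) (w k))).ord)
    (Filter.Eventually.of_forall fun k => Cardinal.isSuccLimit_ord (idx_reg _ _).1)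
  let X : Set Cardinal.{u} := (fun j => idx θ (smooth (c β) j)) '' W
  have hXY : X ⊆ pcfS Y := by
    rintro _ ⟨j, hj, rfl⟩
    exact hidx _ ((hξβ j hj.2).trans hβ)
  have hlX : l ∈ pcfS X := by
    refine ⟨J, fun k => idx θ (smooth (c β) (w k)), D', ?_, fun k => ⟨w k, hwmem k, rfl⟩, hl⟩
    intro k k' h
    exact hwinj (hξinj _ _ (idx_inj h))
  have hcl : ∀ i < (Order.succ ρ).ord, idx θ (smooth (c β) i) < l := by
    intro i hi
    refine hl.lt_of_cof ?_
    filter_upwards [hD' i hi] with k hk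
    rw [(idx_reg _ _).cof_ord]
    exact idx_lt.2 (cont_lt (smooth_spec _) hk)
  -- localization
  obtain ⟨X', hX'X, hX'c, m, hm, hlm⟩ := weak_localization hYreg hG1 hG2 hG3 hG4 hXY hlX
  have hX'κ : #X' ≤ Cardinal.lift.{u+1} κ := hX'c.trans hYc
  let I' : Set Ordinal.{u} := {j | j ∈ W ∧ idx θ (smooth (c β) j) ∈ X'}
  have hI' : #I' ≤ Cardinal.lift.{u+1} κ := by
    refine le_trans ?_ hX'κ
    refine Cardinal.mk_le_of_injective
      (f := fun i : I' => (⟨idx θ (smooth (c β) i.1), i.2.2⟩ : X')) ?_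
    intro i j h
    exact Subtype.ext (hξinj _ _ (idx_inj (Subtype.mk.inj h)))
  have hsup : supOn I' (Order.succ ρ).ord id < (Order.succ ρ).ord := by
    refine supOn_lt ?_ fun i _ hi => hi
    rw [hκreg.cof_ord]
    exact hI'.trans_lt (Cardinal.lift_lt.2 (hκρ.trans_lt (Order.lt_succ ρ)))
  have hX'Z : X' ⊆ Z (c β) (C ∩ Iio (Order.succ (supOn I' (Order.succ ρ).ord id))) := by
    intro x hx
    obtain ⟨j, hj, rfl⟩ := hX'X hx
    exact ⟨j, ⟨hj.1, mem_Iio.2 (Order.lt_succ_iff.2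
      (le_supOn (G := id) (show j ∈ I' from ⟨hj, hx⟩) hj.2))⟩, rfl⟩
  obtain ⟨z, hz, hz'⟩ := hZβ _ (hκlim.succ_lt hsup)
  have h7 : m ≤ idx θ z := hz' (pcfS_mono hX'Z hm)
  obtain ⟨i, hi, hzi⟩ := cont_limit (smooth_spec (c β)) hκlim.isSuccPrelimit
    (show z < smooth (c β) (Order.succ ρ).ord by rw [htop]; exact hz)
  exact absurd ((hcl i hi).trans_le (hlm.trans h7)) (not_lt.2 (idx_le.2 hzi.le))


/-- `P` predicts `D` at type `σ`: some subset of `D` of type `σ` (enumerated by `e`) has all its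
proper initial segments covered by members of `P` which are contained in `D` and bounded by an
element of the subset. -/
def Predicts (P : Set (Set Ordinal.{u})) (σ : Cardinal.{u}) (D : Set Ordinal.{u}) : Prop :=
  ∃ e : Ordinal.{u} → Ordinal.{u}, (∀ i < σ.ord, ∀ j < i, e j < e i) ∧ (∀ i < σ.ord, e i ∈ D) ∧
    ∀ ε < σ.ord, ∃ z ∈ P, e '' Iio ε ⊆ z ∧ z ⊆ D ∧ ∃ ι < σ.ord, z ⊆ Iio (e ι)

/-- The prediction bound. -/
theorem pcf_le_of_predicts {α : Ordinal.{u}} {κ θ : Cardinal.{u}} (hα : Order.IsSuccLimit α)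
    (hκ : #(aSet α) = Cardinal.lift.{u+1} κ) (hθ : θ.IsRegular) (hκθ : κ < θ)
    {P : Set (Set Ordinal.{u})}
    (hP : ∀ D ⊆ Iio θ.ord, ClubIn D θ.ord → Predicts P (Order.succ κ) D) :
    #(pcf (aSet α)) ≤ max (Cardinal.lift.{u+1} θ) #P := by
  by_contra hcon
  push Not at hcon
  obtain ⟨hc1, hc2⟩ := max_lt_iff.1 hcon
  have hviol : #(aSet α) < #(pcf (aSet α)) := by
    rw [hκ]
    exact (Cardinal.lift_lt.2 hκθ).trans hc1
  obtain ⟨γ, μ, _, h2, _⟩ := Helper85.Refl.runs.1 α hα hviol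
  rw [h2] at hc1 hc2
  obtain ⟨ν', hν'⟩ := Cardinal.mem_range_lift_of_le hc2.le
  rw [← hν', Cardinal.lift_lt] at hc2
  rw [Cardinal.lift_lt] at hc1
  have h3 : Order.succ (max θ ν') ≤ μ := Order.succ_le_of_lt (max_lt hc1 hc2)
  obtain ⟨D, hD, hD'⟩ := no_prediction (ν := max θ ν') hα hκ hθ hκθ (le_max_left _ _)
    (by rw [h2]; exact Cardinal.lift_le.2 h3) (𝓕 := P)
    (by rw [← hν']; exact Cardinal.lift_le.2 (le_max_right _ _))
  have hθlim : Order.IsSuccLimit θ.ord := Cardinal.isSuccLimit_ord hθ.1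
  have huniv : ClubIn (Iio θ.ord) θ.ord :=
    ⟨fun y hy => ⟨Order.succ y, hθlim.succ_lt hy, Order.lt_succ y, hθlim.succ_lt hy⟩,
      fun δ hδ _ _ => hδ⟩
  have hne : (aSet α).Nonempty := by
    by_contra hcon
    rw [Set.not_nonempty_iff_eq_empty] at hcon
    rw [pcf_aSet, hcon, pcfS_empty] at hviol
    exact lt_irrefl _ hviol
  obtain ⟨γ', _, _, hAc, h0, _⟩ := setup hα hne
  have hκ0 : ℵ₀ ≤ κ := by
    rw [hAc] at hκ
    rw [← Cardinal.lift_injective hκ]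
    exact h0
  obtain ⟨e, he1, he2, he3⟩ := hP (D ∩ Iio θ.ord) inter_subset_right
    (club_inter (by rw [hθ.cof_ord]; exact hκ0.trans_lt hκθ) hD huniv)
  obtain ⟨ε, hε, h4⟩ := hD' e he1 he2
  obtain ⟨z, hz, h5, h6, ι, hι, h7⟩ := he3 ε hε
  exact h4 z hz h5 (h6.trans inter_subset_left) ι hι h7

theorem aleph0_le_of_ne {α : Ordinal.{u}} {κ : Cardinal.{u}} (hα : Order.IsSuccLimit α)
    (hκ : #(aSet α) = Cardinal.lift.{u+1} κ) (h : #(pcf (aSet α)) ≠ 0) : ℵ₀ ≤ κ := by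
  have hne : (aSet α).Nonempty := by
    by_contra hcon
    rw [Set.not_nonempty_iff_eq_empty] at hcon
    rw [pcf_aSet, hcon, pcfS_empty] at h
    simp at h
  obtain ⟨γ', _, _, hAc, h0, _⟩ := setup hα hne
  rw [hAc] at hκ
  rw [← Cardinal.lift_injective hκ]
  exact h0

theorem le_of_incr {o : Ordinal.{u}} {e : Ordinal.{u} → Ordinal.{u}}
    (he : ∀ i < o, ∀ j < i, e j < e i) : ∀ i < o, i ≤ e i := by
  intro i
  induction i using WellFoundedLT.induction with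
  | ind i ih =>
    intro hi
    refine le_of_forall_lt fun j hj => ?_
    exact (ih j hj (hj.trans hi)).trans_lt (he i hi j hj)

/-- No small family predicts stationarily many of the clubs. -/
theorem exists_unpredicted {α : Ordinal.{u}} {κ ρ lam : Cardinal.{u}} (hα : Order.IsSuccLimit α)
    (hκ : #(aSet α) = Cardinal.lift.{u+1} κ) (hκρ : κ ≤ ρ) (hlam : lam.IsRegular)
    (hκlam : Order.succ ρ < lam)
    (hp : Cardinal.lift.{u+1} lam ≤ #(pcf (aSet α))) {T : Set Ordinal.{u}}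
    (hT : Approachable T (Order.succ ρ) lam) :
    ∃ D : Ordinal.{u} → Set Ordinal.{u},
      (∀ β, D β ⊆ Iio (Order.succ ρ).ord ∧ ClubIn (D β) (Order.succ ρ).ord) ∧
      ∀ P : Set (Set Ordinal.{u}), #P < Cardinal.lift.{u+1} lam →
        ¬ StatIn {β | β ∈ T ∧ Predicts P (Order.succ ρ) (D β)} lam.ord := by
  obtain ⟨D, hD1, hD2⟩ := exists_clubs' hα hκ hκρ hlam hκlam hp hT
  refine ⟨D, hD1, fun P hP hstat => ?_⟩
  obtain ⟨E, hE, hE'⟩ := hD2 P hP
  obtain ⟨β, ⟨hβT, e, he1, he2, he3⟩, hβE, hβlam⟩ := hstat E hE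
  have hκ0 : ℵ₀ ≤ κ := aleph0_le_of_ne hα hκ (by
    intro h
    rw [h] at hp
    simp only [nonpos_iff_eq_zero, Cardinal.lift_eq_zero] at hp
    exact hlam.ne_zero hp)
  have hτlim : Order.IsSuccLimit (Order.succ ρ).ord :=
    Cardinal.isSuccLimit_ord ((hκ0.trans hκρ).trans (Order.le_succ ρ))
  obtain ⟨i, hi, h1⟩ := hE' β hβT hβE hβlam (e '' Iio (Order.succ ρ).ord) (by
    rintro _ ⟨i, hi, rfl⟩
    exact he2 i hi) (by
    intro x hx
    have hsx := hτlim.succ_lt hx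
    exact ⟨_, ⟨_, hsx, rfl⟩, (Order.lt_succ x).trans_le (le_of_incr he1 _ hsx),
      (hD1 β).1 (he2 _ hsx)⟩)
  obtain ⟨z, hz, h2, h3, ι, hι, h4⟩ := he3 i hi
  refine h1 z hz (subset_trans ?_ h2) h3 (e ι) ((hD1 β).1 (he2 ι hι)) h4
  rintro _ ⟨⟨j, hj, rfl⟩, hji⟩
  exact ⟨j, (le_of_incr he1 j hj).trans_lt hji, rfl⟩

theorem enum_lt {τ : Cardinal.{u}} (hτ : τ.IsRegular) {S : Set Ordinal.{u}} (hS : ¬ BddAbove S)
    (hu : UnbIn S τ.ord) : ∀ i < τ.ord, enumOrd S i < τ.ord := by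
  classical
  intro i hi
  by_contra hcon
  push Not at hcon
  have h1 : ⨆ j : Iio i, (if enumOrd S j.1 < τ.ord then enumOrd S j.1 else 0) < τ.ord := by
    refine iSup_Iio_lt ?_ fun j => ?_
    · rw [hτ.cof_ord]; exact Cardinal.lt_ord.1 hi
    · split_ifs with h
      · exact h
      · exact (zero_le).trans_lt hi
  obtain ⟨y, hy, h2, h3⟩ := hu _ h1
  obtain ⟨j, rfl⟩ := enumOrd_surjective hS hy
  have h4 : j < i := (enumOrd_strictMono hS).lt_iff_lt.1 (h3.trans_le hcon)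
  have h5 := Ordinal.le_iSup
    (fun j : Iio i => if enumOrd S j.1 < τ.ord then enumOrd S j.1 else 0) ⟨j, h4⟩
  simp only [if_pos h3] at h5
  exact absurd h2 (not_lt.2 h5)

/-- The segments of an unbounded set predict every set almost containing it. -/
theorem predicts_of_almostIn {τ : Cardinal.{u}} (hτ : τ.IsRegular) {C D : Set Ordinal.{u}}
    (hC : UnbIn C τ.ord) {ε : Ordinal.{u}} (hε : ε < τ.ord)
    (h : ∀ i ∈ C, ε ≤ i → i < τ.ord → i ∈ D) {P : Set (Set Ordinal.{u})}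
    (hP : ∀ i < τ.ord, C ∩ Ico ε i ∈ P) : Predicts P τ D := by
  classical
  let S : Set Ordinal.{u} := (C ∩ Ico ε τ.ord) ∪ Ici τ.ord
  have hS : ¬ BddAbove S := by
    rintro ⟨b, hb⟩
    have h1 : Order.succ (max b τ.ord) ∈ S :=
      Or.inr ((le_max_right b τ.ord).trans (Order.le_succ _))
    exact absurd (hb h1) (not_le.2 (Order.lt_succ_iff.2 (le_max_left b τ.ord)))
  have hu : UnbIn S τ.ord := by
    intro x hx
    obtain ⟨y, h1, h2, h3⟩ := hC (max x ε) (max_lt hx hε)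
    exact ⟨y, Or.inl ⟨h1, (le_max_right x ε).trans h2.le, h3⟩, (le_max_left x ε).trans_lt h2, h3⟩
  have hlt := enum_lt hτ hS hu
  have hmem : ∀ i < τ.ord, enumOrd S i ∈ C ∩ Ico ε τ.ord := by
    intro i hi
    rcases enumOrd_mem hS i with h1 | h1
    · exact h1
    · exact absurd (hlt i hi) (not_lt.2 h1)
  refine ⟨enumOrd S, fun i _ j hj => enumOrd_strictMono hS hj, fun i hi => ?_, fun i hi => ?_⟩
  · have h1 := hmem i hi
    exact h _ h1.1 h1.2.1 h1.2.2
  · refine ⟨_, hP _ (hlt i hi), ?_, ?_, i, hi, ?_⟩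
    · rintro _ ⟨j, hj, rfl⟩
      have h1 := hmem j (lt_trans hj hi)
      exact ⟨h1.1, h1.2.1, enumOrd_strictMono hS hj⟩
    · rintro x ⟨h1, h2, h3⟩
      exact h x h1 h2 (h3.trans (hlt i hi))
    · rintro x ⟨_, _, h3⟩
      exact h3

/-- The stationary form of `exists_unpredicted` for one set. -/
theorem almostIn_stat {ρ lam : Cardinal.{u}} (h0 : ℵ₀ ≤ ρ) (hρlam : Order.succ ρ < lam)
    {T : Set Ordinal.{u}} {D : Ordinal.{u} → Set Ordinal.{u}}
    (hD : ∀ P : Set (Set Ordinal.{u}), #P < Cardinal.lift.{u+1} lam →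
        ¬ StatIn {β | β ∈ T ∧ Predicts P (Order.succ ρ) (D β)} lam.ord) {C : Set Ordinal.{u}}
    (hC : UnbIn C (Order.succ ρ).ord) :
    ¬ StatIn {β | β ∈ T ∧ ∃ ε < (Order.succ ρ).ord,
        ∀ i ∈ C, ε ≤ i → i < (Order.succ ρ).ord → i ∈ D β} lam.ord := by
  intro hstat
  refine hD ((fun z : Ordinal.{u} × Ordinal.{u} => C ∩ Ico z.1 z.2) ''
      (Iio (Order.succ ρ).ord ×ˢ Iio (Order.succ ρ).ord)) ?_ (hstat.mono ?_)
  · refine Cardinal.mk_image_le.trans_lt ?_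
    rw [Cardinal.mk_setProd, Cardinal.mk_Iio_ordinal, Cardinal.card_ord,
      Cardinal.mul_eq_self (Cardinal.aleph0_le_lift.2 (h0.trans (Order.le_succ ρ)))]
    exact Cardinal.lift_lt.2 hρlam
  · rintro β ⟨hβT, ε, hε, h⟩
    exact ⟨hβT, predicts_of_almostIn (Cardinal.isRegular_succ h0) hC hε h
      fun i hi => ⟨(ε, i), ⟨hε, hi⟩, rfl⟩⟩

/-- `|pcf(a_α)| ≤ 𝔡(κ⁺)` -/
theorem pcf_le_dNum {α : Ordinal.{u}} {κ : Cardinal.{u}} (hα : Order.IsSuccLimit α)
    (hκ : #(aSet α) = Cardinal.lift.{u+1} κ) :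
    #(pcf (aSet α)) ≤ Cardinal.lift.{u+1} (dNum κ) := by
  classical
  by_cases hne : #(pcf (aSet α)) = 0
  · rw [hne]; exact zero_le
  have h0 : ℵ₀ ≤ κ := aleph0_le_of_ne hα hκ hne
  have hreg : (Order.succ κ).IsRegular := Cardinal.isRegular_succ h0
  have hlim : Order.IsSuccLimit (Order.succ κ).ord := Cardinal.isSuccLimit_ord hreg.1
  have hcof : ℵ₀ < (Order.succ κ).ord.cof := by
    rw [hreg.cof_ord]; exact h0.trans_lt (Order.lt_succ κ)
  obtain ⟨F, hF, hF'⟩ : ∃ F : Set ((Order.succ κ).ord.ToType → (Order.succ κ).ord.ToType),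
      #F = dNum κ ∧ ∀ f, ∃ g ∈ F, EvLe f g := by
    refine csInf_mem (s := {c | ∃ F : Set ((Order.succ κ).ord.ToType →
      (Order.succ κ).ord.ToType), #F = c ∧ ∀ f, ∃ g ∈ F, EvLe f g}) ?_
    exact ⟨_, Set.univ, rfl, fun f => ⟨f, trivial, ⟨ToType.mk ⟨0, hlim.bot_lt⟩, fun i _ => le_rfl⟩⟩⟩
  -- `κ⁺ ≤ 𝔡(κ⁺)`
  have hκd : Order.succ κ ≤ dNum κ := by
    by_contra hcon
    push Not at hcon
    have h1 : ∀ x : (Order.succ κ).ord.ToType, ∃ y : (Order.succ κ).ord.ToType,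
        ∀ f ∈ F, f x < y := by
      intro x
      have h2 := iSup_lt_of_mk_lt (ι := ULift.{u+1} F)
        (f := fun f => (ToType.mk.symm (f.down.1 x)).1) hreg (by
          rw [Cardinal.mk_uLift]
          exact Cardinal.lift_lt.2 (hF ▸ hcon)) (fun f => (ToType.mk.symm (f.down.1 x)).2)
      refine ⟨ToType.mk ⟨_, hlim.succ_lt h2.2⟩, fun f hf => ?_⟩
      have h3 : (ToType.mk.symm (f x)).1 < Order.succ
          (⨆ f : ULift.{u+1} F, (ToType.mk.symm (f.down.1 x)).1) :=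
        Order.lt_succ_iff.2 (le_ciSup h2.1 (ULift.up ⟨f, hf⟩ : ULift.{u+1} F))
      rw [← ToType.mk.symm.lt_iff_lt, OrderIso.symm_apply_apply]
      exact h3
    choose y hy using h1
    obtain ⟨f, hf, i₀, h2⟩ := hF' y
    exact absurd (h2 i₀ le_rfl) (not_le.2 (hy i₀ f hf))
  let g' : ((Order.succ κ).ord.ToType → (Order.succ κ).ord.ToType) → Ordinal.{u} → Ordinal.{u} :=
    fun g o => if h : o < (Order.succ κ).ord then
      (ToType.mk.symm (g (ToType.mk ⟨o, h⟩))).1 else 0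
  have hg'lt : ∀ g o, g' g o < (Order.succ κ).ord := by
    intro g o
    simp only [g']
    split_ifs with h
    · exact (ToType.mk.symm (g (ToType.mk ⟨o, h⟩))).2
    · exact hlim.bot_lt
  let Dg : ((Order.succ κ).ord.ToType → (Order.succ κ).ord.ToType) → Set Ordinal.{u} :=
    fun g => {i | ∀ j < i, i ∈ Ioi (g' g j)}
  have hDg : ∀ g, ClubIn (Dg g) (Order.succ κ).ord := by
    intro g
    refine club_diag hcof (fun x hx => ?_) (fun j => Ioi (g' g j)) fun j _ =>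
      club_Ioi hlim (hg'lt g j)
    rw [hreg.cof_ord]
    exact Cardinal.lt_ord.1 hx
  let P : Set (Set Ordinal.{u}) := range (fun z : F × (Iio (Order.succ κ).ord ×
    Iio (Order.succ κ).ord) => Dg z.1.1 ∩ Ico z.2.1.1 z.2.2.1)
  have hP : #P ≤ Cardinal.lift.{u+1} (dNum κ) := by
    have h1 := Cardinal.mk_range_le (f := fun z : F × (Iio (Order.succ κ).ord ×
      Iio (Order.succ κ).ord) => Dg z.1.1 ∩ Ico z.2.1.1 z.2.2.1)
    refine h1.trans ?_
    rw [Cardinal.mk_prod, Cardinal.mk_prod, Cardinal.mk_Iio_ordinal, Cardinal.card_ord, hF]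
    simp only [Cardinal.lift_id]
    rw [Cardinal.mul_eq_self (Cardinal.aleph0_le_lift.2 hreg.1), Cardinal.lift_id'.{u, u+1}]
    exact Cardinal.mul_le_of_le (Cardinal.aleph0_le_lift.2 (hreg.1.trans hκd)) le_rfl
      (Cardinal.lift_le.2 hκd)
  refine (pcf_le_of_predicts hα hκ hreg (Order.lt_succ κ) (P := P) ?_).trans
    (max_le (Cardinal.lift_le.2 hκd) hP)
  intro D hDκ hD
  have hnx : ∀ x : Iio (Order.succ κ).ord, ∃ y : Iio (Order.succ κ).ord, y.1 ∈ D ∧ x < y := by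
    intro x
    obtain ⟨y, h1, h2, h3⟩ := hD.unb x.1 x.2
    exact ⟨⟨y, h3⟩, h1, h2⟩
  choose nx hnx1 hnx2 using hnx
  obtain ⟨g, hg, i₀, hi₀⟩ := hF' (fun x => ToType.mk (nx (ToType.mk.symm x)))
  refine predicts_of_almostIn hreg (hDg g).unb (ε := Order.succ (ToType.mk.symm i₀).1)
    (hlim.succ_lt (ToType.mk.symm i₀).2) ?_ ?_
  · intro i hi hεi hi'
    have h1 : (ToType.mk.symm i₀).1 < i := Order.succ_le_iff.1 hεi
    refine hD.cl i hi' ((zero_le).trans_lt h1) ?_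
    intro x hx
    have hx' : max x (ToType.mk.symm i₀).1 < i := max_lt hx h1
    have hx'' : max x (ToType.mk.symm i₀).1 < (Order.succ κ).ord := hx'.trans hi'
    have h2 := hi₀ (ToType.mk ⟨_, hx''⟩) (by
      rw [← OrderIso.symm_apply_le]
      exact (le_max_right x (ToType.mk.symm i₀).1 :
        (ToType.mk.symm i₀).1 ≤ max x (ToType.mk.symm i₀).1))
    have h3 : nx ⟨_, hx''⟩ ≤ ToType.mk.symm (g (ToType.mk ⟨_, hx''⟩)) := by
      rw [ToType.mk.le_symm_apply]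
      simpa using h2
    have h4 : (nx ⟨_, hx''⟩).1 ≤ g' g (max x (ToType.mk.symm i₀).1) := by
      simp only [g', dif_pos hx'']
      exact h3
    refine ⟨(nx ⟨_, hx''⟩).1, hnx1 _, ?_, h4.trans_lt (hi _ hx')⟩
    exact (le_max_left x (ToType.mk.symm i₀).1).trans_lt (hnx2 ⟨_, hx''⟩)
  · intro i hi
    exact ⟨(⟨g, hg⟩, ⟨_, hlim.succ_lt (ToType.mk.symm i₀).2⟩, ⟨i, hi⟩), rfl⟩

end Helper55.PB
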