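import Pool.Agent.Helper55.PB.Pred

/-!
A family that predicts clubs bounds `pcf(a_α)`.  Let `α` be a limit ordinal and `κ = |a_α|`.  A
family `P` predicts a set `D` of ordinals at type `σ` if some subset of `D` of type `σ` has all its
proper initial segments covered by members of `P` which are contained in `D` and bounded by an
element of the subset.

(1) If `θ > κ` is regular and `P` predicts every club of `θ` at type `κ⁺`, then
`|pcf(a_α)| ≤ max(θ, |P|)`.  In particular `|pcf(a_α)| ≤ 𝔡(κ⁺)`.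

(2) The local form.  Let `λ` be regular, `κ ≤ ρ`, `ρ⁺ < λ ≤ |pcf(a_α)|` and let `T ⊆ λ` be approachable (for
sequences of length `ρ⁺`).  There are clubs `D_β` of `ρ⁺` such that no family `P` of fewer than `λ`
sets predicts `D_β` at type `ρ⁺` for stationarily many `β ∈ T`.  If `T` is stationary, then
`𝔟(ρ⁺) ≤ λ ≤ 𝔡(ρ⁺)`.

(3) Either `|pcf(a_α)| ≤ κ⁺⁺`, or `|pcf(a_α)| = κ⁺⁺⁺`, (2) holds for `ρ = κ`, `λ = κ⁺⁺⁺` and the set
`T` of all ordinals of cofinality `κ⁺`, and `𝔟(κ⁺) ≤ κ⁺⁺⁺ ≤ 𝔡(κ⁺)`.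
-/

set_option autoImplicit false

open Cardinal Helper23.Pcf Helper85.Refl Helper55.PB

universe u

namespace Helper55.PB.Draft

theorem unpredicted_of_large {α : Ordinal.{u}} {κ ρ lam : Cardinal.{u}}
    (hα : Order.IsSuccLimit α) (hκ : #(aSet α) = Cardinal.lift.{u + 1} κ) (hκρ : κ ≤ ρ)
    (hlam : lam.IsRegular) (hρlam : Order.succ ρ < lam)
    (hp : Cardinal.lift.{u + 1} lam ≤ #(pcf (aSet α)))
    {T : Set Ordinal.{u}} (hT : Approachable T (Order.succ ρ) lam) :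
    ∃ D : Ordinal.{u} → Set Ordinal.{u},
      (∀ β, D β ⊆ Set.Iio (Order.succ ρ).ord ∧ ClubIn (D β) (Order.succ ρ).ord) ∧
      (∀ P : Set (Set Ordinal.{u}), #P < Cardinal.lift.{u + 1} lam →
        ¬ StatIn {β | β ∈ T ∧ Predicts P (Order.succ ρ) (D β)} lam.ord) ∧
      (StatIn T lam.ord → bNum ρ ≤ lam ∧ lam ≤ dNum ρ) := by
  have hκ0 : ℵ₀ ≤ κ := aleph0_le_of_ne hα hκ (by
    intro h
    rw [h] at hp
    simp only [nonpos_iff_eq_zero, Cardinal.lift_eq_zero] at hp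
    exact hlam.ne_zero hp)
  obtain ⟨D, hD1, hD2⟩ := exists_unpredicted hα hκ hκρ hlam hρlam hp hT
  exact ⟨D, hD1, hD2, fun hT' => b_le_d_ge (hκ0.trans hκρ) hlam hρlam hT' hD1
    fun C hC => almostIn_stat (hκ0.trans hκρ) hρlam hD2 hC⟩

theorem result :
    -- (1)
    (∀ (α : Ordinal.{u}) (κ θ : Cardinal.{u}) (P : Set (Set Ordinal.{u})),
      Order.IsSuccLimit α → #(aSet α) = Cardinal.lift.{u + 1} κ → θ.IsRegular → κ < θ →
      (∀ D ⊆ Set.Iio θ.ord, ClubIn D θ.ord → Predicts P (Order.succ κ) D) →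
      #(pcf (aSet α)) ≤ max (Cardinal.lift.{u + 1} θ) #P) ∧
    (∀ (α : Ordinal.{u}) (κ : Cardinal.{u}), Order.IsSuccLimit α →
      #(aSet α) = Cardinal.lift.{u + 1} κ →
      #(pcf (aSet α)) ≤ Cardinal.lift.{u + 1} (dNum κ)) ∧
    -- (2)
    (∀ (α : Ordinal.{u}) (κ ρ lam : Cardinal.{u}), Order.IsSuccLimit α →
      #(aSet α) = Cardinal.lift.{u + 1} κ → κ ≤ ρ → lam.IsRegular → Order.succ ρ < lam →
      Cardinal.lift.{u + 1} lam ≤ #(pcf (aSet α)) →
      ∀ T : Set Ordinal.{u}, Approachable T (Order.succ ρ) lam →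
      ∃ D : Ordinal.{u} → Set Ordinal.{u},
        (∀ β, D β ⊆ Set.Iio (Order.succ ρ).ord ∧ ClubIn (D β) (Order.succ ρ).ord) ∧
        (∀ P : Set (Set Ordinal.{u}), #P < Cardinal.lift.{u + 1} lam →
          ¬ StatIn {β | β ∈ T ∧ Predicts P (Order.succ ρ) (D β)} lam.ord) ∧
        (StatIn T lam.ord → bNum ρ ≤ lam ∧ lam ≤ dNum ρ)) ∧
    -- (3)
    (∀ (α : Ordinal.{u}) (κ : Cardinal.{u}), Order.IsSuccLimit α →
      #(aSet α) = Cardinal.lift.{u + 1} κ →
      #(pcf (aSet α)) ≤ Cardinal.lift.{u + 1} (Order.succ (Order.succ κ)) ∨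
      (#(pcf (aSet α)) = Cardinal.lift.{u + 1} (Order.succ (Order.succ (Order.succ κ))) ∧
        bNum κ ≤ Order.succ (Order.succ (Order.succ κ)) ∧
        Order.succ (Order.succ (Order.succ κ)) ≤ dNum κ ∧
        ∃ D : Ordinal.{u} → Set Ordinal.{u},
          (∀ β, D β ⊆ Set.Iio (Order.succ κ).ord ∧ ClubIn (D β) (Order.succ κ).ord) ∧
          ∀ P : Set (Set Ordinal.{u}),
            #P < Cardinal.lift.{u + 1} (Order.succ (Order.succ (Order.succ κ))) →
            ¬ StatIn {β | β.cof = Order.succ κ ∧ Predicts P (Order.succ κ) (D β)}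
              (Order.succ (Order.succ (Order.succ κ))).ord)) := by
  refine ⟨fun α κ θ P hα hκ hθ hκθ hP => pcf_le_of_predicts hα hκ hθ hκθ hP,
    fun α κ hα hκ => pcf_le_dNum hα hκ,
    fun α κ ρ lam hα hκ hκρ hlam hρlam hp T hT =>
      unpredicted_of_large hα hκ hκρ hlam hρlam hp hT, ?_⟩
  intro α κ hα hκ
  by_cases hp : #(pcf (aSet α)) ≤ Cardinal.lift.{u + 1} (Order.succ (Order.succ κ))
  · exact Or.inl hp
  right
  push Not at hp
  have hviol : #(aSet α) < #(pcf (aSet α)) := by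
    rw [hκ]
    refine lt_of_le_of_lt (Cardinal.lift_le.2 ?_) hp
    exact (Order.le_succ κ).trans (Order.le_succ _)
  have hκ0 : ℵ₀ ≤ κ := aleph0_le_of_ne hα hκ ((zero_le).trans_lt hviol).ne'
  obtain ⟨γ, μ, _, h2, h3, _⟩ := Helper85.Refl.runs.1 α hα hviol
  have hμ : μ = Order.succ (Order.succ (Order.succ κ)) := by
    apply le_antisymm
    · rw [hκ, ← Cardinal.lift_succ, ← Cardinal.lift_succ, ← Cardinal.lift_succ,
        Cardinal.lift_le] at h3
      exact h3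
    · rw [h2, Cardinal.lift_lt] at hp
      exact Order.succ_le_of_lt hp
  rw [hμ] at h2
  have hκ1 : ℵ₀ ≤ Order.succ κ := hκ0.trans (Order.le_succ κ)
  have hκ2 : ℵ₀ ≤ Order.succ (Order.succ κ) := hκ1.trans (Order.le_succ _)
  have hreg3 : (Order.succ (Order.succ (Order.succ κ))).IsRegular :=
    Cardinal.isRegular_succ hκ2
  have hlt : Order.succ κ < Order.succ (Order.succ (Order.succ κ)) :=
    (Order.lt_succ _).trans (Order.lt_succ _)
  obtain ⟨D, h4, h5, h6⟩ := unpredicted_of_large hα hκ le_rfl hreg3 hlt h2.ge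
    (approachable_succ (Cardinal.isRegular_succ hκ1) (Cardinal.isRegular_succ hκ0)
      (Order.lt_succ _))
  obtain ⟨h7, h8⟩ := h6 (stat_cof (Cardinal.isRegular_succ hκ0) hreg3 hlt)
  exact ⟨h2, h7, h8, D, h4, h5⟩

end Helper55.PB.Draft
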