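import Pool.Agent.Helper55.PB.Pred
import Pool.Agent.Helper85.Refl.Anatomy

/-!
Interpolation in `P(κ)` bounds `pcf`.  `Chain` and `exists_chain` are due to helper15.
-/

set_option autoImplicit false

open Cardinal Helper23.Pcf Helper85.Refl

universe u v

namespace Helper55.PB

/-- `A_β` (`β < o`) is a sequence of sets such that no `A_β` is covered by finitely many `A_γ`,
`γ < β`, and for every `β < o` of uncountable cofinality there is a club of `δ < β` with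
`A_δ ⊆ A_β`. -/
def Chain {X : Type v} (A : Ordinal.{u} → Set X) (o : Ordinal.{u}) : Prop :=
  (∀ β < o, ∀ F : Set Ordinal.{u}, F.Finite → (∀ γ ∈ F, γ < β) → ¬ A β ⊆ ⋃ γ ∈ F, A γ) ∧
  ∀ β < o, ℵ₀ < β.cof → ∃ C, ClubIn C β ∧ ∀ δ ∈ C, δ < β → A δ ⊆ A β

open Classical in
/-- the first `j` terms of a sequence of sets -/
noncomputable def trunc {X : Type v} (j : Ordinal.{u}) (G : Ordinal.{u} → Set X) :
    Ordinal.{u} → Set X :=
  fun k => if k < j then G k else ∅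

/-- `F` interpolates at `θ`: whenever `G_i` (`i < θ`) and `A` are sets, no `G_i` is covered by
finitely many earlier ones and `G_i ⊆ A` for club many `i < θ`, there are `j < i < θ` and
`E ∈ F(G_k : k < j)` with `G_i ⊆ E ⊆ A`. -/
def Interpolates {X : Type v} (F : Ordinal.{u} → (Ordinal.{u} → Set X) → Set (Set X))
    (θ : Cardinal.{u}) : Prop :=
  ∀ (G : Ordinal.{u} → Set X) (A : Set X),
    (∀ i < θ.ord, ∀ T : Set Ordinal.{u}, T.Finite → (∀ k ∈ T, k < i) → ¬ G i ⊆ ⋃ k ∈ T, G k) →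
    (∃ C, ClubIn C θ.ord ∧ ∀ i ∈ C, i < θ.ord → G i ⊆ A) →
    ∃ j i, j < i ∧ i < θ.ord ∧ ∃ E ∈ F j (trunc j G), G i ⊆ E ∧ E ⊆ A

theorem no_chain_of_interp {X : Type u} {θ ν : Cardinal.{u}} (hθ : θ.IsRegular) (hθ0 : ℵ₀ < θ)
    (hθν : θ ≤ ν) {F : Ordinal.{u} → (Ordinal.{u} → Set X) → Set (Set X)}
    (hF : ∀ j G, #(F j G) ≤ ν) (hI : Interpolates F θ) (A : Ordinal.{u} → Set X)
    (hA : Chain A (Order.succ ν).ord) : False := by
  classical
  obtain ⟨h1, h2⟩ := hA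
  have hν0 : ℵ₀ ≤ ν := hθ.1.trans hθν
  have hreg : (Order.succ ν).IsRegular := Cardinal.isRegular_succ hν0
  have hlim : Order.IsSuccLimit (Order.succ ν).ord := Cardinal.isSuccLimit_ord hreg.1
  have hcof : (Order.succ ν).ord.cof = Order.succ ν := hreg.cof_ord
  have hθlim : Order.IsSuccLimit θ.ord := Cardinal.isSuccLimit_ord hθ.1
  have hθcof : ℵ₀ < θ.ord.cof := by rw [hθ.cof_ord]; exact hθ0
  -- covering by finitely many members with indices at most `β`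
  let Cov : Set X → Ordinal.{u} → Prop := fun E β =>
    ∃ T : Set Ordinal.{u}, T.Finite ∧ (∀ γ ∈ T, γ ≤ β) ∧ E ⊆ ⋃ γ ∈ T, A γ
  have hg : ∀ E : Set X, ∃ b < (Order.succ ν).ord,
      ∀ β < (Order.succ ν).ord, Cov E β → Cov E b := by
    intro E
    by_cases h : ∃ β < (Order.succ ν).ord, Cov E β
    · obtain ⟨β, hβ, hc⟩ := h
      exact ⟨β, hβ, fun _ _ _ => hc⟩
    · exact ⟨0, hlim.bot_lt, fun β hβ hc => absurd ⟨β, hβ, hc⟩ h⟩
  choose g hg1 hg2 using hg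
  obtain ⟨ξ, hξ⟩ := exists_cont (fun j ζ =>
    ⨆ E : F j (trunc j fun k => A (ζ k)), Order.succ (g E.1))
  have hξlt : ∀ i < Order.succ θ.ord, ξ i < (Order.succ ν).ord := by
    refine cont_bound hξ hlim ?_ ?_
    · intro i _ ζ _
      exact Ordinal.iSup_lt_of_lt_cof (by rw [hcof]; exact (hF _ _).trans_lt (Order.lt_succ _))
        fun E => hlim.succ_lt (hg1 E.1)
    · intro i hi
      have := Ordinal.card_le_card (Order.lt_succ_iff.1 hi)
      rw [Cardinal.card_ord] at this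
      rw [hcof]
      exact (this.trans hθν).trans_lt (Order.lt_succ _)
  have hη : ξ θ.ord < (Order.succ ν).ord := hξlt _ (Order.lt_succ _)
  have hηcof : (ξ θ.ord).cof = θ := by rw [cont_cof hξ hθlim, hθ.cof_ord]
  obtain ⟨C, hC, hC'⟩ := h2 _ hη (by rw [hηcof]; exact hθ0)
  obtain ⟨j, i, hji, hi, E, hE, hGE, hEA⟩ := hI (fun i => A (ξ i)) (A (ξ θ.ord)) (by
    intro i hi T hT hTi hsub
    refine h1 (ξ i) (hξlt i (hi.trans (Order.lt_succ _))) (ξ '' T) (hT.image ξ) ?_ ?_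
    · rintro _ ⟨k, hk, rfl⟩
      exact cont_lt hξ (hTi k hk)
    · rw [Set.biUnion_image]
      exact hsub) ⟨_, club_preimage hξ hθcof hC, fun i hi hi' => hC' _ hi (cont_lt hξ hi')⟩
  -- the rank of `E` is below `ξ i`
  have hle : ∀ ζ : Ordinal.{u} → Ordinal.{u}, (∀ k < j, ζ k = ξ k) →
      Order.succ (g E) ≤ ⨆ E : F j (trunc j fun k => A (ζ k)), Order.succ (g E.1) := by
    intro ζ hζ
    have htr : trunc j (fun k => A (ζ k)) = trunc j fun k => A (ξ k) := by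
      funext k
      simp only [trunc]
      split_ifs with h3
      · rw [hζ k h3]
      · rfl
    exact Ordinal.le_iSup (fun E : F j (trunc j fun k => A (ζ k)) => Order.succ (g E.1))
      ⟨E, by rw [htr]; exact hE⟩
  have hgE : g E < ξ i :=
    (Order.lt_succ (g E)).trans_le ((hle _ fun k hk => if_pos hk.le).trans (cont_step hξ hji))
  obtain ⟨T, hT1, hT2, hT3⟩ := hg2 E _ hη ⟨{ξ θ.ord}, Set.finite_singleton _,
    by rintro _ rfl; exact le_rfl, by rw [Set.biUnion_singleton]; exact hEA⟩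
  exact h1 (ξ i) (hξlt i (hi.trans (Order.lt_succ _))) T hT1
    (fun γ hγ => (hT2 γ hγ).trans_lt hgE) (hGE.trans hT3)

/-- The sequence of the traces of closed transitive generators. -/
theorem exists_chain {α : Ordinal.{u}} {lam : Cardinal.{u}} (hα : Order.IsSuccLimit α)
    (hlam : lam.IsRegular) (hκlam : #(aSet α) < Cardinal.lift.{u + 1} lam)
    (hp : Cardinal.lift.{u + 1} lam ≤ #(pcf (aSet α))) :
    ∃ (γ : Ordinal.{u}) (A : Ordinal.{u} → Set Cardinal.{u}), α.card = ℵ_ γ ∧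
      (∀ β, A β ⊆ aSet α) ∧ Chain A lam.ord ∧
      ∀ β < lam.ord, ℵ_ (γ + (6 : ℕ) + β + 1) ∈ pcf (A β) ∧
        ∀ c ∈ pcf (A β), c ≤ ℵ_ (γ + (6 : ℕ) + β + 1) := by
  classical
  have hne : (aSet α).Nonempty := by
    by_contra hcon
    rw [Set.not_nonempty_iff_eq_empty] at hcon
    rw [pcf_aSet, hcon, pcfS_empty] at hp
    simp only [Cardinal.mk_eq_zero, nonpos_iff_eq_zero, Cardinal.lift_eq_zero] at hp
    exact hlam.ne_zero hp
  obtain ⟨γ, hγ, hγα, hA, hAc, h0, hκγ⟩ := setup' hα hne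
  have hκlam' : (α - γ).card < lam := by rw [hAc, Cardinal.lift_lt] at hκlam; exact hκlam
  have hp' := hp
  rw [pcf_aSet, hA] at hp'
  obtain ⟨θ, Y, G, ⟨hθ, _⟩, hY, _, hG1, hG2, _, _, hidx, hclub⟩ :=
    exists_structure h0 rfl hκγ hα hγα hlam hκlam' hp'
  subst hθ
  have hYA : Y ⊆ aSet α := hY.trans hA.ge
  have hYreg : ∀ m ∈ Y, m.IsRegular := fun m hm => (hY hm).1
  have hsA : ∀ U ⊆ aSet α, pcf U = pcfS U := by
    intro U hU
    have : Small.{u} U := small_subset hU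
    exact pcf_eq_pcfS fun μ h => (hU h).1
  refine ⟨γ, fun β => Y ∩ G (idx (γ + (6 : ℕ)) β), hγ, fun β => Set.inter_subset_left.trans hYA,
    ⟨?_, ?_⟩, ?_⟩
  · intro β hβ F hF hFβ hsub
    refine not_cover hYreg hG1 hG2 (hidx β hβ) (hF.image (idx (γ + (6 : ℕ)))) ?_ ?_ ?_
    · rintro _ ⟨δ, hδ, rfl⟩
      exact hidx δ ((hFβ δ hδ).trans hβ)
    · rintro _ ⟨δ, hδ, rfl⟩
      exact idx_lt.2 (hFβ δ hδ)
    · refine hsub.trans ?_
      intro x hx
      obtain ⟨δ, hδ, hx'⟩ := Set.mem_iUnion₂.1 hx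
      exact Set.mem_iUnion₂.2 ⟨_, ⟨δ, hδ, rfl⟩, hx'.2⟩
  · intro β hβ hβcof
    obtain ⟨C, hC, hC'⟩ := hclub β hβ hβcof
    refine ⟨C, hC, fun δ hδ hδβ => ?_⟩
    exact Set.inter_subset_inter_right Y ((hG1 _ (hidx β hβ)).2.2.2 _ (hC' δ hδ hδβ))
  · intro β hβ
    rw [hsA _ (Set.inter_subset_left.trans hYA)]
    refine ⟨hG2 Y (self_subset_pcfS hYreg) _ (hidx β hβ), fun c hc => ?_⟩
    have h1 := hG1 _ (hidx β hβ)
    exact h1.2.2.1 _ (h1.2.1 (pcfS_mono Set.inter_subset_right hc))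


/-- The interpolation theorem. -/
theorem pcf_le_of_interp {α : Ordinal.{u}} {X : Type u} {θ ν : Cardinal.{u}}
    (hα : Order.IsSuccLimit α) (hX : #(aSet α) ≤ Cardinal.lift.{u + 1} #X) (hXν : #X ≤ ν)
    (hθ : θ.IsRegular) (hθ0 : ℵ₀ < θ) (hθν : θ ≤ ν)
    {F : Ordinal.{u} → (Ordinal.{u} → Set X) → Set (Set X)}
    (hF : ∀ j G, #(F j G) ≤ ν) (hI : Interpolates F θ) :
    #(pcf (aSet α)) ≤ Cardinal.lift.{u + 1} ν := by
  classical
  by_contra hcon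
  push Not at hcon
  have hν0 : ℵ₀ ≤ ν := hθ.1.trans hθν
  have hp : Cardinal.lift.{u + 1} (Order.succ ν) ≤ #(pcf (aSet α)) := by
    rw [Cardinal.lift_succ]; exact Order.succ_le_of_lt hcon
  have hκ : #(aSet α) < Cardinal.lift.{u + 1} (Order.succ ν) :=
    hX.trans_lt (Cardinal.lift_lt.2 (hXν.trans_lt (Order.lt_succ ν)))
  obtain ⟨γ, A, _, hA1, ⟨hA2, hA3⟩, _⟩ :=
    exists_chain hα (Cardinal.isRegular_succ hν0) hκ hp
  obtain ⟨e⟩ : Nonempty (aSet α ↪ X) := by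
    refine Cardinal.lift_mk_le'.1 ?_
    rw [Cardinal.lift_id'.{u, u + 1}]
    exact hX
  refine no_chain_of_interp hθ hθ0 hθν hF hI
    (fun β => {x | ∃ c : aSet α, c.1 ∈ A β ∧ e c = x}) ⟨?_, ?_⟩
  · intro β hβ F hF hFβ hsub
    refine hA2 β hβ F hF hFβ fun c hc => ?_
    obtain ⟨γ', hγ', c', hc', he⟩ := Set.mem_iUnion₂.1 (hsub ⟨⟨c, hA1 β hc⟩, hc, rfl⟩)
    have := e.injective he
    rw [this] at hc'
    exact Set.mem_iUnion₂.2 ⟨γ', hγ', hc'⟩
  · intro β hβ hβcof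
    obtain ⟨C, hC, hC'⟩ := hA3 β hβ hβcof
    refine ⟨C, hC, fun δ hδ hδβ => ?_⟩
    rintro _ ⟨c, hc, rfl⟩
    exact ⟨c, hC' δ hδ hδβ hc, rfl⟩

end Helper55.PB
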