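import Pool.Agent.Helper85.Refl.Bd
import Pool.Agent.Helper85.Refl.Runs

/-!
Large `pcf(a_α)` and clubs of `κ⁺`.  Let `α` be a limit ordinal and `κ = |a_α|`.

(1) Let `λ` be regular with `κ⁺ < λ ≤ |pcf(a_α)|` and let `T ⊆ λ` be approachable (for sequences of
length `κ⁺`).  There are clubs `D_β` of `κ⁺` such that for every family `P` of fewer than `λ` sets
and almost all `β ∈ T`, no unbounded subset of `D_β` has all its proper initial segments in `P`.  If
`T` is stationary, then `𝔟(κ⁺) ≤ λ ≤ 𝔡(κ⁺)`, and no unbounded subset of `κ⁺` is almost contained in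
`D_β` for stationarily many `β ∈ T`.

(2) Either `|pcf(a_α)| ≤ κ⁺⁺`, or `|pcf(a_α)| = κ⁺⁺⁺`, (1) holds for `λ = κ⁺⁺⁺` and the set `T` of all
ordinals of cofinality `κ⁺`, and `𝔟(κ⁺) ≤ κ⁺⁺⁺ ≤ 𝔡(κ⁺)`.
-/

set_option autoImplicit false

open Cardinal Helper23.Pcf Helper85.Refl

universe u

namespace Pool.Agent.Helper55.PB.OldFreshClubs

/-- `D` is a sequence of clubs of `κ⁺` which is fresh along `T ⊆ λ`: for every family `P` of fewer
than `λ` sets and almost all `β ∈ T`, no unbounded subset of `D_β` has all its proper initial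
segments in `P`. -/
def Fresh (D : Ordinal.{u} → Set Ordinal.{u}) (T : Set Ordinal.{u}) (κ lam : Cardinal.{u}) :
    Prop :=
  (∀ β, D β ⊆ Set.Iio (Order.succ κ).ord ∧ ClubIn (D β) (Order.succ κ).ord) ∧
  ∀ P : Set (Set Ordinal.{u}), #P < Cardinal.lift.{u + 1} lam → ∃ E, ClubIn E lam.ord ∧
    ∀ β ∈ T, β ∈ E → β < lam.ord → ∀ C ⊆ D β, UnbIn C (Order.succ κ).ord →
      ∃ i < (Order.succ κ).ord, C ∩ Set.Iio i ∉ P

/-- `C` is contained in `D` from some point on -/
def AlmostIn (C D : Set Ordinal.{u}) (o : Ordinal.{u}) : Prop :=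
  ∃ ε < o, ∀ i ∈ C, ε ≤ i → i < o → i ∈ D

theorem fresh_of_large {α : Ordinal.{u}} {κ lam : Cardinal.{u}} (hα : Order.IsSuccLimit α)
    (hκ : #(aSet α) = Cardinal.lift.{u + 1} κ) (hlam : lam.IsRegular)
    (hκlam : Order.succ κ < lam) (hp : Cardinal.lift.{u + 1} lam ≤ #(pcf (aSet α)))
    {T : Set Ordinal.{u}} (hT : Approachable T (Order.succ κ) lam) :
    ∃ D, Fresh D T κ lam ∧
      (∀ C, UnbIn C (Order.succ κ).ord →
        ¬ StatIn {β | β ∈ T ∧ AlmostIn C (D β) (Order.succ κ).ord} lam.ord) ∧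
      (StatIn T lam.ord → bNum κ ≤ lam ∧ lam ≤ dNum κ) := by
  have hne : (aSet α).Nonempty := by
    by_contra hcon
    rw [Set.not_nonempty_iff_eq_empty] at hcon
    rw [pcf_aSet, hcon, pcfS_empty] at hp
    simp only [Cardinal.mk_eq_zero, nonpos_iff_eq_zero, Cardinal.lift_eq_zero] at hp
    exact hlam.ne_zero hp
  obtain ⟨γ, _, _, hAc, h0, _⟩ := setup hα hne
  have hκ0 : ℵ₀ ≤ κ := by
    rw [hAc] at hκ
    rw [← Cardinal.lift_injective hκ]
    exact h0
  obtain ⟨D, hD1, hD2⟩ := exists_clubs hα hκ hlam hκlam hp hT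
  have h1 : ∀ C, UnbIn C (Order.succ κ).ord →
      ¬ StatIn {β | β ∈ T ∧ AlmostIn C (D β) (Order.succ κ).ord} lam.ord :=
    fun C hC => clubs_stat hκ0 hκlam hD2 hC
  exact ⟨D, ⟨hD1, hD2⟩, h1, fun hT' => b_le_d_ge hκ0 hlam hκlam hT' hD1 h1⟩

theorem result :
    -- (1)
    (∀ (α : Ordinal.{u}) (κ lam : Cardinal.{u}), Order.IsSuccLimit α →
      #(aSet α) = Cardinal.lift.{u + 1} κ → lam.IsRegular → Order.succ κ < lam →
      Cardinal.lift.{u + 1} lam ≤ #(pcf (aSet α)) →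
      ∀ T : Set Ordinal.{u}, Approachable T (Order.succ κ) lam →
      ∃ D, Fresh D T κ lam ∧
        (∀ C, UnbIn C (Order.succ κ).ord →
          ¬ StatIn {β | β ∈ T ∧ AlmostIn C (D β) (Order.succ κ).ord} lam.ord) ∧
        (StatIn T lam.ord → bNum κ ≤ lam ∧ lam ≤ dNum κ)) ∧
    -- (2)
    (∀ (α : Ordinal.{u}) (κ : Cardinal.{u}), Order.IsSuccLimit α →
      #(aSet α) = Cardinal.lift.{u + 1} κ →
      #(pcf (aSet α)) ≤ Cardinal.lift.{u + 1} (Order.succ (Order.succ κ)) ∨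
      (#(pcf (aSet α)) = Cardinal.lift.{u + 1} (Order.succ (Order.succ (Order.succ κ))) ∧
        bNum κ ≤ Order.succ (Order.succ (Order.succ κ)) ∧
        Order.succ (Order.succ (Order.succ κ)) ≤ dNum κ ∧
        ∃ D, Fresh D {β | β.cof = Order.succ κ} κ (Order.succ (Order.succ (Order.succ κ))) ∧
          ∀ C, UnbIn C (Order.succ κ).ord →
            ¬ StatIn {β | β.cof = Order.succ κ ∧ AlmostIn C (D β) (Order.succ κ).ord}
              (Order.succ (Order.succ (Order.succ κ))).ord)) := by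
  refine ⟨fun α κ lam hα hκ hlam hκlam hp T hT => fresh_of_large hα hκ hlam hκlam hp hT, ?_⟩
  intro α κ hα hκ
  by_cases hp : #(pcf (aSet α)) ≤ Cardinal.lift.{u + 1} (Order.succ (Order.succ κ))
  · exact Or.inl hp
  right
  push Not at hp
  have hviol : #(aSet α) < #(pcf (aSet α)) := by
    rw [hκ]
    refine lt_of_le_of_lt (Cardinal.lift_le.2 ?_) hp
    exact (Order.le_succ κ).trans (Order.le_succ _)
  have hne : (aSet α).Nonempty := by
    by_contra hcon
    rw [Set.not_nonempty_iff_eq_empty] at hcon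
    rw [pcf_aSet, hcon, pcfS_empty] at hviol
    exact lt_irrefl _ hviol
  obtain ⟨γ', _, _, hAc, h0', _⟩ := setup hα hne
  have hκ0 : ℵ₀ ≤ κ := by
    rw [hκ] at hAc
    rw [Cardinal.lift_injective hAc]
    exact h0'
  obtain ⟨γ, μ, _, h2, h3, _⟩ := Helper85.Refl.runs.1 α hα hviol
  have hμ : μ = Order.succ (Order.succ (Order.succ κ)) := by
    apply le_antisymm
    · rw [hκ, ← Cardinal.lift_succ, ← Cardinal.lift_succ, ← Cardinal.lift_succ,
        Cardinal.lift_le] at h3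
      exact h3
    · rw [h2, Cardinal.lift_lt] at hp
      exact Order.succ_le_of_lt hp
  rw [hμ] at h2
  have hκ1 : ℵ₀ ≤ Order.succ κ := hκ0.trans (Order.le_succ κ)
  have hκ2 : ℵ₀ ≤ Order.succ (Order.succ κ) := hκ1.trans (Order.le_succ _)
  have hreg3 : (Order.succ (Order.succ (Order.succ κ))).IsRegular :=
    Cardinal.isRegular_succ hκ2
  have hlt : Order.succ κ < Order.succ (Order.succ (Order.succ κ)) :=
    (Order.lt_succ _).trans (Order.lt_succ _)
  obtain ⟨D, h4, h5, h6⟩ := fresh_of_large hα hκ hreg3 hlt h2.ge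
    (approachable_succ (Cardinal.isRegular_succ hκ1) (Cardinal.isRegular_succ hκ0)
      (Order.lt_succ _))
  obtain ⟨h7, h8⟩ := h6 (stat_cof (Cardinal.isRegular_succ hκ0) hreg3 hlt)
  exact ⟨h2, h7, h8, D, h4, h5⟩

end Pool.Agent.Helper55.PB.OldFreshClubs
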